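import Pool.Agent.Q35.DP.Plan

set_option autoImplicit false

namespace Pool.Agent.Q54.DP

open Polynomial WeierstrassCurve.Affine Pool.Agent.Y166.DP

section
variable (k : Type) [Field k] (lam : k)

lemma alg_X : algebraMap k[X] (crv k lam).CoordinateRing X =
    CoordinateRing.mk (crv k lam) (C X) := rfl

lemma alg_p (p : k[X]) : algebraMap k[X] (crv k lam).CoordinateRing p =
    CoordinateRing.mk (crv k lam) (C p) := rfl

lemma alg_c (c : k) : algebraMap k (crv k lam).CoordinateRing c =
    CoordinateRing.mk (crv k lam) (C (C c)) := rfl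

lemma aeval_x (p : k[X]) : aeval (CoordinateRing.mk (crv k lam) (C X)) p =
    CoordinateRing.mk (crv k lam) (C p) := by
  rw [← alg_X, aeval_algebraMap_apply, aeval_X_left_apply, alg_p]

lemma aeval_xB (p : k[X]) : aeval (xB k lam) p =
    algebraMap (crv k lam).CoordinateRing (KB k lam) (CoordinateRing.mk (crv k lam) (C p)) := by
  rw [xB, aeval_algebraMap_apply, aeval_x]

lemma eqn0 : CoordinateRing.mk (crv k lam) X ^ 2 = CoordinateRing.mk (crv k lam) (C X) *
    (CoordinateRing.mk (crv k lam) (C X) - 1) *
    (CoordinateRing.mk (crv k lam) (C X) - CoordinateRing.mk (crv k lam) (C (C lam))) := by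
  have h : CoordinateRing.mk (crv k lam) (crv k lam).polynomial = 0 := AdjoinRoot.mk_self
  have h2 : (crv k lam).polynomial =
      X ^ 2 - C X * (C X - 1) * (C X - C (C lam)) := by
    rw [WeierstrassCurve.Affine.polynomial]
    simp only [crv, map_zero, map_neg, map_add, map_one, zero_mul, add_zero, map_mul, map_pow]
    ring
  have h3 : CoordinateRing.mk (crv k lam) (X ^ 2 - C X * (C X - 1) * (C X - C (C lam))) = 0 :=
    (congrArg (CoordinateRing.mk (crv k lam)) h2.symm).trans h
  simp only [map_sub, map_mul, map_pow, map_one] at h3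
  exact sub_eq_zero.1 h3

end

theorem model : StmModel := by
  intro k _ _ lam h0 h1
  refine ⟨h0, h1, ?_, ?_, ?_⟩
  · have h := congrArg (algebraMap (crv k lam).CoordinateRing (KB k lam)) (eqn0 k lam)
    simp only [map_pow, map_mul, map_sub, map_one] at h
    have e : algebraMap k (KB k lam) lam = algebraMap (crv k lam).CoordinateRing (KB k lam)
        (CoordinateRing.mk (crv k lam) (C (C lam))) := by
      rw [← alg_c, ← IsScalarTower.algebraMap_apply]
    rw [e]
    exact h
  · rw [transcendental_iff]
    intro p hp
    rw [aeval_xB, ← alg_p] at hp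
    have h2 := (IsFractionRing.injective (crv k lam).CoordinateRing (KB k lam))
      (hp.trans (map_zero _).symm)
    exact (FaithfulSMul.algebraMap_injective k[X] (crv k lam).CoordinateRing)
      (h2.trans (map_zero _).symm)
  · rw [eq_top_iff]
    intro z _
    have hx : xB k lam ∈ IntermediateField.adjoin k {xB k lam, yB k lam} :=
      IntermediateField.subset_adjoin _ _ (by simp)
    have hy : yB k lam ∈ IntermediateField.adjoin k {xB k lam, yB k lam} :=
      IntermediateField.subset_adjoin _ _ (by simp)
    have hp : ∀ p : k[X], aeval (xB k lam) p ∈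
        IntermediateField.adjoin k {xB k lam, yB k lam} := by
      intro p
      have h := (aeval (⟨xB k lam, hx⟩ : IntermediateField.adjoin k {xB k lam, yB k lam}) p).2
      have e := aeval_algebraMap_apply (A := IntermediateField.adjoin k {xB k lam, yB k lam})
        (KB k lam) ⟨xB k lam, hx⟩ p
      rw [IntermediateField.algebraMap_apply, IntermediateField.algebraMap_apply] at e
      rw [e]
      exact h
    have hC : ∀ a : (crv k lam).CoordinateRing, algebraMap _ (KB k lam) a ∈
        IntermediateField.adjoin k {xB k lam, yB k lam} := by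
      intro a
      obtain ⟨p, q, rfl⟩ := CoordinateRing.exists_smul_basis_eq a
      rw [CoordinateRing.smul, CoordinateRing.smul, mul_one, map_add, map_mul, ← aeval_xB,
        ← aeval_xB]
      exact add_mem (hp p) (mul_mem (hp q) hy)
    obtain ⟨a, b, _, rfl⟩ := IsFractionRing.div_surjective (A := (crv k lam).CoordinateRing) z
    exact div_mem (hC a) (hC b)

end Pool.Agent.Q54.DP
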